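import Pool.Agent.H59.L.S8.Y506.PV.Stm
import Pool.Agent.H59.L.S8.W695.KH.Final

/-!
# Central hyperplane sections from the functional inequality
-/

set_option autoImplicit false

namespace Pool.Agent.Y151.PV

open MeasureTheory Set Filter Topology
open scoped ENNReal InnerProductSpace Pointwise
open Pool.Agent.W695.KH (Eu EU EV VV Sm Pot Uu sec PerLe sec_bound perim)
open Pool.Agent.Y506.RG (EW VW Star)
open Pool.Agent.Y506.PV (ind S_HYP)
open Pool.Agent.W932.KH (closure_ae EV_scale q_max q_pos)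

theorem EW_ind {n : ℕ} {D : Set (Eu (Fin n))} (hD : MeasurableSet D) (v : Eu (Fin n) → ℝ) :
    EW (ind D) v = EV D v := by
  unfold EW EV
  have h1 : ∫ x, v x * ind D x = ∫ x in D, v x := by
    rw [← integral_indicator hD]
    refine integral_congr_ae (Eventually.of_forall fun x => ?_)
    show v x * D.indicator (fun _ => (1 : ℝ)) x = D.indicator v x
    by_cases h : x ∈ D
    · rw [indicator_of_mem h, indicator_of_mem h, mul_one]
    · rw [indicator_of_notMem h, indicator_of_notMem h, mul_zero]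
  have h2 : ∫ x, ind D x = (volume D).toReal := by
    show ∫ x, D.indicator (fun _ => (1 : ℝ)) x = _
    rw [integral_indicator hD, setIntegral_const, smul_eq_mul, mul_one]
    rfl
  rw [h1, h2]

theorem EV_closure {n : ℕ} {Ω : Set (Eu (Fin n))} (ho : IsOpen Ω) (hc : Convex ℝ Ω)
    (f : Eu (Fin n) → ℝ) : EV (closure Ω) f = EV Ω f := by
  unfold EV
  rw [setIntegral_congr_set (closure_ae ho hc), measure_congr (closure_ae ho hc)]

/-- Central hyperplane sections. -/
theorem hyp : S_HYP := by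
  obtain ⟨Cs, hCs, hs⟩ := sec_bound
  refine ⟨Real.sqrt Cs * (15 / 2), by positivity, ?_⟩
  intro n hn Ω ho hconv hbd h0 hsym c hc hstar
  have hne : Nonempty (Fin n) := ⟨⟨0, by omega⟩⟩
  obtain ⟨a, ha, hmax⟩ := q_max (Ω := Ω) ho hbd
  set s := EV Ω (fun x => ⟪a, x⟫_ℝ ^ 2) with hsdef
  have hspos : 0 < s := q_pos ho hbd h0 a ha
  have hfin : volume Ω < ⊤ := hbd.measure_lt_top
  have hvol : 0 < (volume Ω).toReal :=
    ENNReal.toReal_pos (ho.measure_pos volume ⟨0, h0⟩).ne' hfin.ne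
  have hss : 0 < Real.sqrt s := Real.sqrt_pos.2 hspos
  have hDm : MeasurableSet (closure Ω) := isClosed_closure.measurableSet
  have hEW : ∀ v : Eu (Fin n) → ℝ, EW (ind (closure Ω)) v = EV Ω v := fun v => by
    rw [EW_ind hDm, EV_closure ho hconv]
  refine ⟨a, ?_, ?_⟩
  · rintro rfl
    rw [norm_zero] at ha
    exact zero_ne_one ha
  intro E hE hEΩ hEvol P hP
  have key : (volume Ω).toReal ≤ 3 * (5 / 2 * (c * Real.sqrt s)) * P := by
    refine perim (Fin n) Ω ho hconv hbd h0 E hE hEΩ hEvol P hP (5 / 2 * (c * Real.sqrt s))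
      (by positivity) ?_
    intro r hr0 hr1 f L M hf hf12 hV
    have hVV : VV (r • closure Ω) f =
        VW (ind (closure Ω)) (fun x => f ((r • LinearMap.id : Eu (Fin n) →ₗ[ℝ] Eu (Fin n)) x)) := by
      unfold VV VW
      rw [EV_scale ho hconv r hr0, EV_scale ho hconv r hr0, hEW, hEW]
      rfl
    have h1 := hstar n (r • LinearMap.id) s hspos (by
      intro θ hθ
      have e1 : VW (ind (closure Ω))
          (fun x => ⟪(r • LinearMap.id : Eu (Fin n) →ₗ[ℝ] Eu (Fin n)) x, θ⟫_ℝ) ≤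
          EV Ω (fun x => ⟪r • θ, x⟫_ℝ ^ 2) := by
        unfold VW
        rw [hEW, hEW]
        have e2 : (fun x : Eu (Fin n) =>
            ⟪(r • LinearMap.id : Eu (Fin n) →ₗ[ℝ] Eu (Fin n)) x, θ⟫_ℝ ^ 2) =
            fun x => ⟪r • θ, x⟫_ℝ ^ 2 := by
          funext x
          rw [LinearMap.smul_apply, LinearMap.id_apply, real_inner_smul_left,
            real_inner_smul_left, real_inner_comm]
        rw [e2]
        have := sq_nonneg (EV Ω fun x : Eu (Fin n) =>
          ⟪(r • LinearMap.id : Eu (Fin n) →ₗ[ℝ] Eu (Fin n)) x, θ⟫_ℝ)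
        linarith
      refine e1.trans ((hmax (r • θ)).trans ?_)
      rw [norm_smul, hθ, mul_one, Real.norm_eq_abs, abs_of_pos hr0]
      have h2 : r ^ 2 ≤ 1 := pow_le_one₀ hr0.le hr1.le
      nlinarith [hspos]) f L M hf hf12 (by rw [← hVV]; exact hV)
    rw [← hVV, hEW] at h1
    rw [EV_scale ho hconv r hr0 (fun x => ‖fderiv ℝ f x‖)]
    have h1' : VV (r • closure Ω) f ≤ c * Real.sqrt s * EV Ω fun x => ‖fderiv ℝ f (r • x)‖ := h1
    set V := VV (r • closure Ω) f
    set Y := EV Ω fun x => ‖fderiv ℝ f (r • x)‖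
    have h3 : 5 / 2 * (c * Real.sqrt s) * Y = 5 / 2 * (c * Real.sqrt s * Y) := by ring
    rw [h3]
    have hV' : 1 / 5 < V := hV
    nlinarith
  have hPpos : 0 < P := by
    have h2 : 0 < 3 * (5 / 2 * (c * Real.sqrt s)) := by positivity
    by_contra hcon
    push Not at hcon
    have : 3 * (5 / 2 * (c * Real.sqrt s)) * P ≤ 0 := mul_nonpos_of_nonneg_of_nonpos h2.le hcon
    linarith
  have hsq : (volume Ω).toReal ^ 2 ≤ (15 / 2) ^ 2 * c ^ 2 * s * P ^ 2 := by
    refine (pow_le_pow_left₀ hvol.le key 2).trans (le_of_eq ?_)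
    have : Real.sqrt s ^ 2 = s := Real.sq_sqrt hspos.le
    calc (3 * (5 / 2 * (c * Real.sqrt s)) * P) ^ 2
        = (15 / 2) ^ 2 * c ^ 2 * Real.sqrt s ^ 2 * P ^ 2 := by ring
      _ = _ := by rw [this]
  obtain ⟨hsec1, hsec2, -⟩ := hs (Fin n) Ω ho hconv hbd h0 hsym a ha
  have h3 : (sec Ω a).toReal ^ 2 ≤ (Real.sqrt Cs * (15 / 2) * c * P) ^ 2 := by
    have h4 : (sec Ω a).toReal ^ 2 * s ≤ Cs * ((15 / 2) ^ 2 * c ^ 2 * s * P ^ 2) :=
      hsec2.trans (mul_le_mul_of_nonneg_left hsq hCs.le)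
    have h5 : (Real.sqrt Cs * (15 / 2) * c * P) ^ 2 = Cs * (15 / 2) ^ 2 * c ^ 2 * P ^ 2 := by
      rw [mul_pow, mul_pow, mul_pow, Real.sq_sqrt hCs.le]
    rw [h5]
    have h6 : (sec Ω a).toReal ^ 2 * s ≤ (Cs * (15 / 2) ^ 2 * c ^ 2 * P ^ 2) * s := by
      refine h4.trans (le_of_eq ?_)
      ring
    exact le_of_mul_le_mul_right h6 hspos
  have h7 : (sec Ω a).toReal ≤ Real.sqrt Cs * (15 / 2) * c * P :=
    le_of_sq_le_sq h3 (by positivity)
  rw [← ENNReal.ofReal_toReal hsec1]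
  exact ENNReal.ofReal_le_ofReal h7

end Pool.Agent.Y151.PV
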